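import Mathlib
import Pool.Agent.Lib.MP_6a9579_co.Tucker
import Pool.Agent.Lib.MP_6a9579_co.Free

/-!
For `1 ≤ k ≤ n` the Borel centerpole number of `ℝⁿ` equals the centerpole number.
-/

namespace Pool.Agent.Results.MP_6a9579_co.Equality

open Set Pool.Agent.Lib.MP_6a9579_co

/-- Euclidean space. -/
abbrev E (n : ℕ) : Type := EuclideanSpace ℝ (Fin n)

/-- Every colour class is a Borel set. -/
def IsBorel {n k : ℕ} (χ : E n → Fin k) : Prop :=
  ∀ i, @MeasurableSet (E n) (borel (E n)) (χ ⁻¹' {i})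

/-- Some unbounded monochromatic set is symmetric about some point of `C`. -/
def HasSym {n k : ℕ} (C : Set (E n)) (χ : E n → Fin k) : Prop :=
  ∃ c ∈ C, ∃ S : Set (E n), ¬ Bornology.IsBounded S ∧ (∃ i, ∀ x ∈ S, χ x = i) ∧
    (fun x => x - c) '' S = (fun x => c - x) '' S

/-- `C` is `k`-centerpole. -/
def Centerpole (n k : ℕ) (C : Set (E n)) : Prop := ∀ χ : E n → Fin k, HasSym C χ

/-- `C` is `k`-centerpole for Borel colourings. -/
def BorelCenterpole (n k : ℕ) (C : Set (E n)) : Prop :=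
  ∀ χ : E n → Fin k, IsBorel χ → HasSym C χ

theorem hasSym_iff {n k : ℕ} (C : Set (E n)) (χ : E n → Fin k) :
    HasSym C χ ↔ ∃ c ∈ C, ¬ Bornology.IsBounded {x | χ x = χ (-x + (c + c))} := by
  constructor
  · rintro ⟨c, hc, S, h1, ⟨i, h2⟩, h3⟩
    refine ⟨c, hc, fun hb => h1 (hb.subset ?_)⟩
    intro x hx
    have : x - c ∈ (fun x => c - x) '' S := h3 ▸ mem_image_of_mem _ hx
    obtain ⟨y, hy, e⟩ := this
    have e' : -x + (c + c) = y := by
      have : y = c - (x - c) := by rw [← e]; simp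
      rw [this]; abel
    show χ x = χ (-x + (c + c))
    rw [e', h2 x hx, h2 y hy]
  · rintro ⟨c, hc, h⟩
    have : ∃ i, ¬ Bornology.IsBounded {x | χ x = i ∧ χ (-x + (c + c)) = i} := by
      by_contra hcon
      apply h
      have h1 : ∀ i, Bornology.IsBounded {x | χ x = i ∧ χ (-x + (c + c)) = i} := by
        intro i
        by_contra h2
        exact hcon ⟨i, h2⟩
      refine (Bornology.isBounded_iUnion.2 h1).subset ?_
      intro x hx
      exact mem_iUnion.2 ⟨χ x, rfl, hx.symm⟩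
    obtain ⟨i, hi⟩ := this
    refine ⟨c, hc, _, hi, ⟨i, fun x hx => hx.1⟩, ?_⟩
    ext y
    constructor
    · rintro ⟨x, hx, rfl⟩
      refine ⟨-x + (c + c), ⟨hx.2, ?_⟩, by simp only; abel⟩
      rw [← hx.1]; congr 1; abel
    · rintro ⟨x, hx, rfl⟩
      refine ⟨-x + (c + c), ⟨hx.2, ?_⟩, by simp only; abel⟩
      rw [← hx.1]; congr 1; abel

theorem isBorel_iff {n k : ℕ} (χ : E n → Fin k) :
    IsBorel χ ↔ ∀ i, MeasurableSet (χ ⁻¹' {i}) := by
  unfold IsBorel
  rw [← BorelSpace.measurable_eq (α := E n)]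

theorem coord_le {n : ℕ} (x : E n) (i : Fin n) : |x i| ≤ ‖x‖ := by
  simpa using PiLp.norm_apply_le x i

/-- A finite centerpole set exists. -/
theorem exists_finite {n k : ℕ} (hk : 1 ≤ k) (hkn : k ≤ n) :
    ∃ C : Set (E n), C.Finite ∧ Centerpole n k C := by
  let em : (Fin n → ℤ) → E n := fun a => WithLp.toLp 2 (fun i => (a i : ℝ))
  have hfin : {v : Fin n → ℤ | ∀ i, -(n : ℤ) ≤ v i ∧ v i ≤ n}.Finite :=
    Set.Finite.pi' (fun _ : Fin n => Set.finite_Icc (-(n : ℤ)) n)
  refine ⟨em '' _, hfin.image em, ?_⟩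
  intro χ
  rw [hasSym_iff]
  by_contra hcon
  have h1 : Bornology.IsBounded (⋃ c ∈ em '' {v : Fin n → ℤ | ∀ i, -(n : ℤ) ≤ v i ∧ v i ≤ n},
      {x | χ x = χ (-x + (c + c))}) := by
    rw [Bornology.isBounded_biUnion (hfin.image em)]
    intro c hc
    by_contra h
    exact hcon ⟨c, hc, h⟩
  obtain ⟨R, hR⟩ := h1.exists_norm_le
  obtain ⟨M, hM⟩ := exists_nat_gt (max R 0)
  have hM0 : 0 < M := by
    have : (0 : ℝ) < M := lt_of_le_of_lt (le_max_right _ _) hM
    exact_mod_cast this
  obtain ⟨a, b, ⟨i, hi⟩, h2, h3⟩ := tucker (n := n) (by omega) M hM0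
    (fun a => (χ (em a + em a) : ℕ)) (fun a => lt_of_lt_of_le (χ _).2 hkn)
  have h4 := hR (em a + em a) (mem_biUnion (mem_image_of_mem em (show a + b ∈ _ from h2)) (by
    show χ (em a + em a) = χ (-(em a + em a) + (em (a + b) + em (a + b)))
    rw [Fin.ext h3]
    congr 1
    ext j
    simp [em]; ring))
  have h5 := coord_le (em a + em a) i
  have h6 : (em a + em a) i = (a i : ℝ) + a i := by simp [em]
  rw [h6] at h5
  have h7 := lt_of_le_of_lt (le_max_left _ _) hM
  have h8 : (0 : ℝ) < M := by exact_mod_cast hM0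
  rcases hi with hi | hi
  · have : (M : ℝ) ≤ a i := by exact_mod_cast hi
    have := le_abs_self ((a i : ℝ) + a i)
    linarith
  · have : (a i : ℝ) ≤ -M := by exact_mod_cast hi
    have := neg_abs_le ((a i : ℝ) + a i)
    linarith

/-- For at least three colours a finite Borel centerpole set is centerpole. -/
theorem of_finite {n k : ℕ} (hk : 3 ≤ k) (C : Set (E n)) (hC : C.Finite)
    (h : BorelCenterpole n k C) : Centerpole n k C := by
  classical
  intro χ
  have := hC.fintype
  let p : (C → ℤ) →+ E n :=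
    (Fintype.linearCombination ℤ (fun c : C => (c : E n) + c)).toAddMonoidHom
  have hp : ∀ c : C, p (Pi.single c 1) = (c : E n) + c := by
    intro c
    simp [p, Fintype.linearCombination_apply_single]
  obtain ⟨col, hc1, hc2⟩ := free_three p
  let N : Set (E n) := {x | ∃ v, x + x = p v}
  have hN : N.Countable := by
    refine (Set.countable_range (fun v => (1 / 2 : ℝ) • p v)).mono ?_
    rintro x ⟨v, e⟩
    refine ⟨v, ?_⟩
    simp only
    rw [← e, ← two_smul ℝ x, smul_smul]; norm_num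
  let χ' : E n → Fin k := fun x => if x ∈ N then χ x else Fin.castLE hk (col x)
  have hB : IsBorel χ' := by
    rw [isBorel_iff]
    intro i
    have : χ' ⁻¹' {i} = (N ∩ χ ⁻¹' {i}) ∪ (Nᶜ ∩ col ⁻¹' {j | Fin.castLE hk j = i}) := by
      ext x
      by_cases hx : x ∈ N <;> simp [χ', hx]
    rw [this]
    exact (hN.mono inter_subset_left).measurableSet.union
      (hN.measurableSet.compl.inter (hc1 (MeasurableSet.of_discrete)))
  obtain ⟨c, hc, hb⟩ := (hasSym_iff _ _).1 (h χ' hB)
  refine (hasSym_iff _ _).2 ⟨c, hc, fun hb' => hb (hb'.subset ?_)⟩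
  intro x hx
  have hinv : ∀ x, x ∈ N → -x + (c + c) ∈ N := by
    rintro x ⟨v, e⟩
    refine ⟨Pi.single ⟨c, hc⟩ 1 + Pi.single ⟨c, hc⟩ 1 - v, ?_⟩
    rw [map_sub, map_add, hp, ← e]; simp only; abel
  by_cases hxN : x ∈ N
  · have h2 := hinv x hxN
    simpa [χ', hxN, h2] using hx
  · exfalso
    have h2 : -x + (c + c) ∉ N := by
      intro h3
      have := hinv _ h3
      apply hxN
      convert this using 1
      abel
    have h4 := hc2 x ⟨c, hc⟩ (fun v e => hxN ⟨v, e⟩)
    rw [hp] at h4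
    apply h4
    simpa [χ', hxN, h2] using hx

/-- Three points are `2`-centerpole. -/
theorem two_upper {n : ℕ} (hn : 2 ≤ n) :
    ∃ a b c : E n, Centerpole n 2 {a, b, c} := by
  let i0 : Fin n := ⟨0, by omega⟩
  let i1 : Fin n := ⟨1, by omega⟩
  have hne : i0 ≠ i1 := by simp [i0, i1]
  let u : E n := EuclideanSpace.single i0 1
  let w : E n := EuclideanSpace.single i1 1
  refine ⟨0, u, w, ?_⟩
  intro χ
  rw [hasSym_iff]
  by_contra hcon
  have h1 : ∀ c ∈ ({0, u, w} : Set (E n)), Bornology.IsBounded {x | χ x = χ (-x + (c + c))} := by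
    intro c hc
    by_contra h
    exact hcon ⟨c, hc, h⟩
  obtain ⟨R, hR⟩ := (((h1 0 (by simp)).union (h1 u (by simp))).union (h1 w (by simp))).exists_norm_le
  have h0 : ∀ x : E n, R < ‖x‖ → χ x ≠ χ (-x) := by
    intro x hx e
    have := hR x (Or.inl (Or.inl (by simpa using e)))
    linarith
  have hs : ∀ c : E n, c = u ∨ c = w → ∀ x : E n, R < ‖x‖ → χ (x + (c + c)) = χ x := by
    intro c hc x hx
    have h2 := h0 x hx
    have h3 : χ (-x) ≠ χ (x + (c + c)) := by
      intro e
      have : ‖-x‖ ≤ R := by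
        rcases hc with rfl | rfl
        · exact hR (-x) (Or.inl (Or.inr (by simpa using e)))
        · exact hR (-x) (Or.inr (by simpa using e))
      rw [norm_neg] at this
      linarith
    revert h2 h3
    generalize χ x = a
    generalize χ (-x) = b
    generalize χ (x + (c + c)) = d
    revert a b d; decide
  have hm : ∀ c : E n, c = u ∨ c = w → ∀ (x : E n) (j : Fin n), c j = 0 → R < |x j| →
      ∀ t : ℕ, χ (x + (t : ℝ) • (c + c)) = χ x := by
    intro c hc x j hj hx t
    induction t with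
    | zero => simp
    | succ t ih =>
      rw [← ih, ← hs c hc (x + (t : ℝ) • (c + c))]
      · congr 1
        push_cast
        rw [add_smul, one_smul, add_assoc]
      · refine lt_of_lt_of_le ?_ (coord_le _ j)
        simpa [hj] using hx
  obtain ⟨M, hM⟩ := exists_nat_gt R
  let x : E n := -((M : ℝ) • u + (M : ℝ) • w)
  have e1 := hm u (Or.inl rfl) x i1 (by simp [u, hne.symm]) (by simpa [x, u, w, hne.symm] using hM) M
  have e2 := hm w (Or.inr rfl) (x + (M : ℝ) • (u + u)) i0 (by simp [w, hne])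
    (by
      have : (x + (M : ℝ) • (u + u)) i0 = M := by simp [x, u, w, hne]
      rw [this]; simpa using hM) M
  have e3 : x + (M : ℝ) • (u + u) + (M : ℝ) • (w + w) = -x := by
    simp only [x, smul_add]; abel
  rw [e3, e1] at e2
  refine h0 x (lt_of_lt_of_le ?_ (coord_le _ i1)) e2.symm
  simpa [x, u, w, hne.symm] using hM

theorem exists_odd_set (n : ℕ) :
    ∃ P : Set (E n), MeasurableSet P ∧ ∀ x, x ≠ 0 → (x ∈ P ↔ -x ∉ P) := by
  classical
  refine ⟨⋃ i : Fin n, {x | 0 < x i} ∩ ⋂ j : Fin n, ⋂ _ : j < i, {x | x j = 0}, ?_, ?_⟩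
  · refine MeasurableSet.iUnion fun i => MeasurableSet.inter ?_
      (MeasurableSet.iInter fun j => MeasurableSet.iInter fun _ => ?_)
    · exact (isOpen_lt continuous_const (by fun_prop)).measurableSet
    · exact (isClosed_eq (by fun_prop) continuous_const).measurableSet
  · intro x hx
    have hex : ∃ i, x i ≠ 0 := by
      by_contra h
      apply hx
      ext i
      by_contra h2
      exact h ⟨i, h2⟩
    obtain ⟨i, hi, hmin⟩ := wellFounded_lt.has_min {i | x i ≠ 0} hex
    have key : ∀ y : E n, (∀ j, y j = 0 ↔ x j = 0) →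
        (y ∈ (⋃ i : Fin n, {x : E n | 0 < x i} ∩ ⋂ j : Fin n, ⋂ _ : j < i, {x : E n | x j = 0}) ↔
          0 < y i) := by
      intro y hy
      simp only [mem_iUnion, mem_inter_iff, mem_ofPred_eq, mem_iInter]
      constructor
      · rintro ⟨j, h1, h2⟩
        rcases lt_trichotomy i j with h | rfl | h
        · exact absurd ((hy i).1 (h2 i h)) hi
        · exact h1
        · exact absurd h (hmin j (fun e => h1.ne' ((hy j).2 e)))
      · intro h
        refine ⟨i, h, fun j hj => (hy j).2 ?_⟩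
        by_contra e
        exact hmin j e hj
    rw [key x (fun _ => Iff.rfl), key (-x) (fun j => by simp)]
    have : x i ≠ 0 := hi
    simp only [PiLp.neg_apply, Left.neg_pos_iff, not_lt]
    exact ⟨le_of_lt, fun h => lt_of_le_of_ne h this.symm⟩

/-- Two points are not `2`-centerpole for Borel colourings. -/
theorem two_lower {n : ℕ} (a d : E n) (hd : d ≠ 0) (C : Set (E n)) (hC : C ⊆ {a, a + d}) :
    ¬ BorelCenterpole n 2 C := by
  classical
  intro h
  obtain ⟨P, hP1, hP2⟩ := exists_odd_set n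
  let π : E n → E n := fun y => (‖d‖ ^ 2) • y - (inner ℝ d y) • d
  have hπ : Continuous π := by fun_prop
  let Q : Set (E n) := (π ⁻¹' P ∩ {y | π y = 0}ᶜ) ∪ ({y | π y = 0} ∩ {y | 0 < inner ℝ d y})
  have hz : MeasurableSet {y | π y = 0} := (isClosed_eq hπ continuous_const).measurableSet
  have hQ : MeasurableSet Q := ((hπ.measurable hP1).inter hz.compl).union
    (hz.inter (isOpen_lt continuous_const (by fun_prop)).measurableSet)
  let χ : E n → Fin 2 := fun x => if x - a ∈ Q then 1 else 0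
  have hB : IsBorel χ := by
    rw [isBorel_iff]
    intro i
    have : Measurable χ := Measurable.ite ((measurable_id.sub_const a) hQ) measurable_const
      measurable_const
    exact this (MeasurableSet.of_discrete)
  have hd2 : 0 < ‖d‖ := norm_pos_iff.2 hd
  have key : ∀ (t : ℝ) (y : E n), 0 ≤ t → t ≤ 2 → 2 * ‖d‖ < ‖y‖ → (y ∈ Q ↔ -y + t • d ∉ Q) := by
    intro t y ht0 ht2 hy
    have e1 : inner ℝ d (-y + t • d) = -inner ℝ d y + t * ‖d‖ ^ 2 := by
      rw [inner_add_right, inner_neg_right, inner_smul_right, real_inner_self_eq_norm_sq]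
    have e2 : π (-y + t • d) = -π y := by
      simp only [π]; rw [e1]; module
    by_cases h0 : π y = 0
    · have h1 : ‖d‖ ^ 2 * ‖y‖ = |inner ℝ d y| * ‖d‖ := by
        have := congrArg norm (sub_eq_zero.1 h0)
        rwa [norm_smul, norm_smul, Real.norm_eq_abs, Real.norm_eq_abs, abs_of_pos (by positivity)]
          at this
      have h2 : 2 * ‖d‖ ^ 2 < |inner ℝ d y| := by
        have : ‖d‖ * ‖y‖ = |inner ℝ d y| := by
          apply mul_right_cancel₀ hd2.ne'
          rw [← h1]; ring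
        nlinarith
      have h3 : 0 ≤ t * ‖d‖ ^ 2 := by positivity
      have h4 : t * ‖d‖ ^ 2 ≤ 2 * ‖d‖ ^ 2 := by gcongr
      simp only [Q, mem_union, mem_inter_iff, mem_preimage, mem_compl_iff, mem_ofPred_eq, e2, e1,
        h0, neg_zero, not_true, and_false, false_or, true_and, not_lt]
      rcases lt_abs.1 h2 with h5 | h5
      · constructor <;> intro _ <;> linarith
      · constructor <;> intro _ <;> linarith
    · simp only [Q, mem_union, mem_inter_iff, mem_preimage, mem_compl_iff, mem_ofPred_eq, e2,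
        h0, neg_eq_zero, not_false_iff, and_true, false_and, or_false]
      exact hP2 _ h0
  obtain ⟨c, hc, hb⟩ := (hasSym_iff _ _).1 (h χ hB)
  apply hb
  refine (Metric.isBounded_closedBall (x := a) (r := 2 * ‖d‖)).subset ?_
  intro x hx
  rw [mem_closedBall_iff_norm]
  by_contra hlt
  rw [not_le] at hlt
  have : ∃ t : ℝ, 0 ≤ t ∧ t ≤ 2 ∧ -x + (c + c) - a = -(x - a) + t • d := by
    rcases hC hc with rfl | rfl
    · exact ⟨0, le_rfl, by norm_num, by rw [zero_smul]; abel⟩
    · exact ⟨2, by norm_num, le_rfl, by rw [two_smul]; abel⟩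
  obtain ⟨t, h0, h2, e⟩ := this
  have h3 := key t (x - a) h0 h2 hlt
  have h4 : χ x = χ (-x + (c + c)) := hx
  simp only [χ, e] at h4
  by_cases h5 : x - a ∈ Q
  · rw [if_pos h5, if_neg (h3.1 h5)] at h4
    exact absurd h4 (by decide)
  · have h6 : -(x - a) + t • d ∈ Q := by
      by_contra h7
      exact h5 (h3.2 h7)
    rw [if_neg h5, if_pos h6] at h4
    exact absurd h4 (by decide)

theorem reduce {n k : ℕ} (hk : 1 ≤ k) (hkn : k ≤ n) (C : Set (E n))
    (h : BorelCenterpole n k C) : ∃ C', Centerpole n k C' ∧ Cardinal.mk C' ≤ Cardinal.mk C := by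
  classical
  by_cases hC : C.Finite
  · rcases (show k = 1 ∨ k = 2 ∨ 3 ≤ k by omega) with rfl | rfl | h3
    · refine ⟨C, fun χ => h χ ?_, le_rfl⟩
      rw [isBorel_iff]
      intro i
      have : χ ⁻¹' {i} = univ := by
        ext x; simp [Subsingleton.elim (χ x) i]
      rw [this]; exact MeasurableSet.univ
    · obtain ⟨a, b, c, habc⟩ := two_upper hkn
      refine ⟨_, habc, ?_⟩
      have h1 : Cardinal.mk ({a, b, c} : Set (E n)) ≤ 3 := by
        refine le_trans Cardinal.mk_insert_le ?_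
        refine le_trans (add_le_add_left Cardinal.mk_insert_le 1) ?_
        rw [Cardinal.mk_singleton]
        norm_num
      refine h1.trans ?_
      by_contra hlt
      rw [not_le, ← Set.cast_ncard hC] at hlt
      have h2 : C.ncard < 3 := by exact_mod_cast hlt
      let u : E n := EuclideanSpace.single ⟨0, by omega⟩ 1
      have hu : u ≠ 0 := by simp [u]
      rcases (show C.ncard = 0 ∨ C.ncard = 1 ∨ C.ncard = 2 by omega) with e | e | e
      · rw [Set.ncard_eq_zero hC] at e
        exact two_lower 0 u hu C (by simp [e]) h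
      · obtain ⟨x, e⟩ := Set.ncard_eq_one.1 e
        exact two_lower x u hu C (by simp [e]) h
      · obtain ⟨x, y, hxy, e⟩ := Set.ncard_eq_two.1 e
        exact two_lower x (y - x) (sub_ne_zero.2 hxy.symm) C (by simp [e]) h
    · exact ⟨C, of_finite h3 C hC h, le_rfl⟩
  · obtain ⟨C', h1, h2⟩ := exists_finite hk hkn
    refine ⟨C', h2, le_trans h1.lt_aleph0.le ?_⟩
    exact Cardinal.aleph0_le_mk_iff.2 (Set.infinite_coe_iff.2 hC)

theorem result (n k : ℕ) (hk : 1 ≤ k) (hkn : k ≤ n) :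
    ∃ m : ℕ,
      IsLeast {κ : Cardinal | ∃ C : Set (E n), BorelCenterpole n k C ∧ Cardinal.mk C = κ} m ∧
      IsLeast {κ : Cardinal | ∃ C : Set (E n), Centerpole n k C ∧ Cardinal.mk C = κ} m := by
  obtain ⟨C0, h0, h1⟩ := exists_finite hk hkn
  let A := {κ : Cardinal | ∃ C : Set (E n), Centerpole n k C ∧ Cardinal.mk C = κ}
  have hA : A.Nonempty := ⟨_, C0, h1, rfl⟩
  have hl : IsLeast A (sInf A) := ⟨csInf_mem hA, fun _ h => csInf_le' h⟩
  obtain ⟨m, hm⟩ := Cardinal.lt_aleph0.1 (lt_of_le_of_lt (hl.2 ⟨C0, h1, rfl⟩) h0.lt_aleph0)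
  rw [hm] at hl
  refine ⟨m, ⟨?_, ?_⟩, hl⟩
  · obtain ⟨C, h2, h3⟩ := hl.1
    exact ⟨C, fun χ _ => h2 χ, h3⟩
  · rintro κ ⟨C, h2, rfl⟩
    obtain ⟨C', h3, h4⟩ := reduce hk hkn C h2
    exact (hl.2 ⟨C', h3, rfl⟩).trans h4

end Pool.Agent.Results.MP_6a9579_co.Equality
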